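import Mathlib
import Pool.Agent.H817R5.EP.Stubs

/-!
# Erdos problem 676 (MP_1626ca_nt): the final step
-/

set_option autoImplicit false

open Finset

namespace Pool.Agent.Helper475R5.EP

open Pool.Agent.H817R5.EP

open Classical in
/-- the integers hit by `p` and not hit by the primes up to `z` -/
noncomputable def NN (X z p : ℕ) : Finset ℕ :=
  (Ico X (3 * X)).filter (fun n => n % p ^ 2 < p ∧ ∀ q ∈ primesTo z, ¬ n % q ^ 2 < q)

open Classical in
theorem comb (X P H z : ℕ) (hH : H ≤ X)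
    (hno : ∀ n ∈ Ico X (3 * X), ∃ p : ℕ, p.Prime ∧ p ^ 2 ≤ 3 * X ∧ n % p ^ 2 < p) :
    ∑ y ∈ Good X P H, ∑ r ∈ range H,
      (if ∀ q ∈ primesTo z, ¬ (y + r) % q ^ 2 < q then (1 : ℝ) else 0) ≤
    H * ∑ p ∈ (Ioc z P).filter Nat.Prime, ((NN X z p).card : ℝ) := by
  have h1 : ∀ y ∈ Good X P H, ∀ r ∈ range H,
      (if ∀ q ∈ primesTo z, ¬ (y + r) % q ^ 2 < q then (1 : ℝ) else 0) ≤
        ∑ p ∈ (Ioc z P).filter Nat.Prime, (if y + r ∈ NN X z p then (1 : ℝ) else 0) := by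
    intro y hy r hr
    have hnn : ∀ p ∈ (Ioc z P).filter Nat.Prime,
        (0 : ℝ) ≤ (if y + r ∈ NN X z p then (1 : ℝ) else 0) := by
      intro p _
      split_ifs <;> norm_num
    split_ifs with hA
    · unfold Good at hy
      rw [mem_filter, mem_Ico] at hy
      obtain ⟨⟨hy1, hy2⟩, hy3⟩ := hy
      rw [mem_range] at hr
      have hn : y + r ∈ Ico X (3 * X) := by
        rw [mem_Ico]
        omega
      obtain ⟨p, hp, hp2, hp3⟩ := hno _ hn
      have hpP : p ≤ P := by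
        by_contra hlt
        rw [not_le] at hlt
        have := hy3 p hp hlt hp2 r hr
        omega
      have hzp : z < p := by
        by_contra hlt
        rw [not_lt] at hlt
        refine hA p ?_ hp3
        unfold primesTo
        rw [mem_filter, mem_Icc]
        exact ⟨⟨hp.one_le, hlt⟩, hp⟩
      have hmem : p ∈ (Ioc z P).filter Nat.Prime := by
        rw [mem_filter, mem_Ioc]
        exact ⟨⟨hzp, hpP⟩, hp⟩
      have hle := Finset.single_le_sum hnn hmem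
      have hin : y + r ∈ NN X z p := by
        unfold NN
        rw [mem_filter]
        exact ⟨hn, hp3, hA⟩
      rw [if_pos hin] at hle
      exact hle
    · exact Finset.sum_nonneg hnn
  have h2 : ∀ p : ℕ, ∀ r : ℕ, ∑ y ∈ Good X P H, (if y + r ∈ NN X z p then (1 : ℝ) else 0) ≤
      ((NN X z p).card : ℝ) := by
    intro p r
    rw [Finset.sum_boole]
    have : ((Good X P H).filter (fun y => y + r ∈ NN X z p)).card ≤ (NN X z p).card := by
      apply Finset.card_le_card_of_injOn (fun y => y + r)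
      · intro y hy
        rw [Finset.mem_coe, mem_filter] at hy
        exact hy.2
      · intro y _ y' _ h
        exact Nat.add_right_cancel h
    exact_mod_cast this
  calc ∑ y ∈ Good X P H, ∑ r ∈ range H,
      (if ∀ q ∈ primesTo z, ¬ (y + r) % q ^ 2 < q then (1 : ℝ) else 0)
      ≤ ∑ y ∈ Good X P H, ∑ r ∈ range H,
        ∑ p ∈ (Ioc z P).filter Nat.Prime, (if y + r ∈ NN X z p then (1 : ℝ) else 0) :=
        Finset.sum_le_sum fun y hy => Finset.sum_le_sum fun r hr => h1 y hy r hr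
    _ = ∑ r ∈ range H, ∑ p ∈ (Ioc z P).filter Nat.Prime,
        ∑ y ∈ Good X P H, (if y + r ∈ NN X z p then (1 : ℝ) else 0) := by
        rw [Finset.sum_comm]
        refine Finset.sum_congr rfl fun r _ => ?_
        rw [Finset.sum_comm]
    _ ≤ ∑ r ∈ range H, ∑ p ∈ (Ioc z P).filter Nat.Prime, ((NN X z p).card : ℝ) :=
        Finset.sum_le_sum fun r _ => Finset.sum_le_sum fun p _ => h2 p r
    _ = H * ∑ p ∈ (Ioc z P).filter Nat.Prime, ((NN X z p).card : ℝ) := by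
        rw [Finset.sum_const, card_range, nsmul_eq_mul]

/-- the asymptotic estimates -/
theorem asym (κ δ : ℝ) (hκ : 0 < κ) (hδ : 0 < δ) :
    ∃ X1 : ℕ, ∀ X : ℕ, X1 ≤ X → Real.log X ^ 3 ≤ κ * (X : ℝ) ^ δ := by
  have h := (isLittleO_log_rpow_rpow_atTop (3 : ℝ) hδ).bound hκ
  have h' := (tendsto_natCast_atTop_atTop (R := ℝ)).eventually h
  rw [Filter.eventually_atTop] at h'
  obtain ⟨X0, hX0⟩ := h'
  refine ⟨max X0 1, fun X hX => ?_⟩
  have h1 := hX0 X (le_trans (le_max_left _ _) hX)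
  have hX1 : (1 : ℝ) ≤ X := by exact_mod_cast le_trans (le_max_right _ _) hX
  rw [Real.norm_eq_abs, Real.norm_eq_abs, abs_of_nonneg (by positivity : (0 : ℝ) ≤ (X : ℝ) ^ δ),
    abs_of_nonneg (Real.rpow_nonneg (Real.log_nonneg hX1) _)] at h1
  have e : Real.log (X : ℝ) ^ (3 : ℝ) = Real.log (X : ℝ) ^ 3 := by
    rw [← Real.rpow_natCast]
    norm_num
  rw [e] at h1
  exact h1

theorem asym2 (C δ : ℝ) (hδ : 0 < δ) :
    ∃ X1 : ℕ, ∀ X : ℕ, X1 ≤ X → C ≤ (X : ℝ) ^ δ := by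
  have h := (tendsto_rpow_atTop hδ).eventually_ge_atTop C
  have h' := (tendsto_natCast_atTop_atTop (R := ℝ)).eventually h
  rw [Filter.eventually_atTop] at h'
  exact h'

theorem fin (hlow : St_LOW) (hgap : St_GAP) (hmass : St_MASS) (hvlow : St_VLOW) : St_FIN := by
  classical
  intro B K α c hK hFL hα hαB hc hc1 hCC
  obtain ⟨c', hc', hV⟩ := hvlow
  set ε : ℝ := α * c / 400 with hε
  have hε0 : 0 < ε := by positivity
  have hεα : ε ≤ α / 400 := by
    rw [hε]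
    apply div_le_div_of_nonneg_right _ (by norm_num)
    exact mul_le_of_le_one_right hα.le hc1
  have hB : (0 : ℝ) ≤ (B : ℝ) := Nat.cast_nonneg B
  have hα1 : α ≤ 1 / 32 := by
    have h5 : 0 ≤ α * (B : ℝ) := by positivity
    linarith
  set β : ℝ := α - 2 * ε with hβ
  have hβ0 : 0 < β := by rw [hβ]; linarith
  have hβα : β < α := by rw [hβ]; linarith
  -- the logarithm
  have hlog : Real.log (α / β) ≤ c / 50 := by
    have h2 : (0 : ℝ) < 1 - c / 200 := by linarith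
    have e1 : α / β = 1 / (1 - c / 200) := by
      rw [div_eq_div_iff hβ0.ne' h2.ne', hβ, hε]
      ring
    have h3 := Real.log_le_sub_one_of_pos (x := α / β) (by positivity)
    refine le_trans h3 ?_
    rw [e1, div_sub_one h2.ne', div_le_div_iff₀ h2 (by norm_num)]
    have h4 : c * (1 - c / 200) ≥ c * (1 / 2) := by
      apply mul_le_mul_of_nonneg_left _ hc.le
      linarith
    linarith
  obtain ⟨X1, hX1⟩ := hCC ε hε0 (by linarith)
  obtain ⟨X2, hX2⟩ := hmass β α (c / 50) hβ0 hβα (by positivity)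
  have hβB : β * (16 * ((B : ℝ) + 1)) ≤ 1 := by
    have : β * (16 * ((B : ℝ) + 1)) ≤ α * (32 * ((B : ℝ) + 1)) := by
      apply mul_le_mul hβα.le _ (by positivity) hα.le
      linarith
    linarith
  obtain ⟨δ, hδ, X3, hX3⟩ := hlow B K (α - 3 / 2 * ε) β hK hFL hβ0 (by rw [hβ]; linarith)
    (by linarith) hβB
  set δ' : ℝ := min δ (1 / 2) with hδ'
  have hδ'0 : 0 < δ' := lt_min hδ (by norm_num)
  set κ : ℝ := (19 * c * c' / 50) / (2 * (1 + 2 * (K : ℝ) ^ 3)) with hκ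
  have hκ0 : 0 < κ := by positivity
  obtain ⟨X4, hX4⟩ := asym κ δ' hκ0 hδ'0
  obtain ⟨X5, hX5⟩ := asym2 2 (ε / 2) (by positivity)
  obtain ⟨X6, hX6⟩ := asym2 3 β hβ0
  refine ⟨X1 + X2 + X3 + X4 + X5 + X6 + 3, fun X hX => ?_⟩
  have hXone : 1 ≤ X := by omega
  have hXR : (1 : ℝ) ≤ X := by exact_mod_cast hXone
  have hXpos : (0 : ℝ) < X := by linarith
  have g1 := hX1 X (by omega)
  have g2 := hX2 X (by omega)
  have g3 := hX3 X (by omega)
  have g4 := hX4 X (by omega)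
  have g5 := hX5 X (by omega)
  have g6 := hX6 X (by omega)
  set P : ℕ := ⌊(X : ℝ) ^ α⌋₊ with hP
  set H : ℕ := ⌊(X : ℝ) ^ (α - ε)⌋₊ with hH
  set z : ℕ := ⌊(X : ℝ) ^ β⌋₊ with hz
  have hz2 : 2 ≤ z := by
    rw [hz]
    apply Nat.le_floor
    push_cast
    linarith
  have hzβ : (z : ℝ) ≤ (X : ℝ) ^ β := Nat.floor_le (by positivity)
  have hPα : (P : ℝ) ≤ (X : ℝ) ^ α := Nat.floor_le (by positivity)
  have hHX : H ≤ X := by
    rw [hH]
    apply Nat.floor_le_of_le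
    calc (X : ℝ) ^ (α - ε) ≤ (X : ℝ) ^ (1 : ℝ) :=
          Real.rpow_le_rpow_of_exponent_le hXR (by linarith)
      _ = X := Real.rpow_one _
  have hH1 : (X : ℝ) ^ (α - 3 / 2 * ε) ≤ H := by
    have e1 : (X : ℝ) ^ (α - ε) = (X : ℝ) ^ (α - 3 / 2 * ε) * (X : ℝ) ^ (ε / 2) := by
      rw [← Real.rpow_add hXpos]
      congr 1
      ring
    have e2 : (X : ℝ) ^ (α - ε) < H + 1 := Nat.lt_floor_add_one _
    have e3 : (1 : ℝ) ≤ (X : ℝ) ^ (α - 3 / 2 * ε) :=
      Real.one_le_rpow hXR (by linarith)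
    have e4 := mul_le_mul_of_nonneg_left g5 (by linarith : (0 : ℝ) ≤ (X : ℝ) ^ (α - 3 / 2 * ε))
    linarith
  have hHpos : (0 : ℝ) < H := by
    have : (0 : ℝ) < (X : ℝ) ^ (α - 3 / 2 * ε) := by positivity
    linarith
  -- by contradiction
  by_contra hcon
  have hno : ∀ n ∈ Ico X (3 * X), ∃ p : ℕ, p.Prime ∧ p ^ 2 ≤ 3 * X ∧ n % p ^ 2 < p := by
    intro n hn
    by_contra h
    apply hcon
    refine ⟨n, hn, fun p hp hp2 => ?_⟩
    by_contra hlt
    exact h ⟨p, hp, hp2, by omega⟩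
  have k1 := comb X P H z hHX hno
  have k2 := g3 z H (Good X P H) hz2 hzβ hH1 hHX (by unfold Good; exact filter_subset _ _)
  have hVz : 0 < V z := by
    have hlz : 0 < Real.log z := Real.log_pos (by exact_mod_cast (by omega : 1 < z))
    have := hV z hz2
    have h0 : 0 < c' / Real.log z ^ 2 := by positivity
    linarith
  -- bound of the gap primes
  have k3 : ∀ p ∈ (Ioc z P).filter Nat.Prime, ((NN X z p).card : ℝ) ≤
      3 * X * V z * (1 / p) + K * (1 + Real.log z) * (K * (z : ℝ) ^ B) ^ 2 * P := by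
    intro p hp
    rw [mem_filter, mem_Ioc] at hp
    have h := hgap B K hK hFL z p X hz2 hp.2 hp.1.1
    have hpP : (p : ℝ) ≤ P := by exact_mod_cast hp.1.2
    have h0 : (0 : ℝ) ≤ Real.log z := Real.log_nonneg (by exact_mod_cast (by omega : 1 ≤ z))
    have h1 : K * (1 + Real.log z) * p * (K * (z : ℝ) ^ B) ^ 2 ≤
        K * (1 + Real.log z) * (K * (z : ℝ) ^ B) ^ 2 * P := by
      have : (0 : ℝ) ≤ K * (1 + Real.log z) * (K * (z : ℝ) ^ B) ^ 2 := by positivity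
      have h5 := mul_le_mul_of_nonneg_left hpP this
      linarith
    have h2 : 3 * (X : ℝ) / p * V z = 3 * X * V z * (1 / p) := by ring
    have h3 : ((NN X z p).card : ℝ) ≤
        3 * X / p * V z + K * (1 + Real.log z) * p * (K * (z : ℝ) ^ B) ^ 2 := by
      unfold NN
      exact h
    linarith
  have k4 : ∑ p ∈ (Ioc z P).filter Nat.Prime, ((NN X z p).card : ℝ) ≤
      3 * X * V z * (c / 25) + P * (K * (1 + Real.log z) * (K * (z : ℝ) ^ B) ^ 2 * P) := by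
    refine le_trans (Finset.sum_le_sum k3) ?_
    rw [Finset.sum_add_distrib, ← Finset.mul_sum, Finset.sum_const, nsmul_eq_mul]
    have h0 : (0 : ℝ) ≤ Real.log z := Real.log_nonneg (by exact_mod_cast (by omega : 1 ≤ z))
    have hcard : ((((Ioc z P).filter Nat.Prime).card : ℕ) : ℝ) ≤ P := by
      have h1 := Finset.card_filter_le (Ioc z P) Nat.Prime
      rw [Nat.card_Ioc] at h1
      exact_mod_cast (by omega : ((Ioc z P).filter Nat.Prime).card ≤ P)
    have hs : ∑ p ∈ (Ioc z P).filter Nat.Prime, (1 : ℝ) / p ≤ c / 25 := by linarith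
    have h3 : (0 : ℝ) ≤ K * (1 + Real.log z) * (K * (z : ℝ) ^ B) ^ 2 * P := by positivity
    have h4 : (0 : ℝ) ≤ 3 * X * V z := by positivity
    have h5 := mul_le_mul_of_nonneg_left hs h4
    have h6 := mul_le_mul_of_nonneg_right hcard h3
    linarith
  -- powers of X
  have hlz : Real.log z ≤ Real.log X := by
    apply Real.log_le_log (by exact_mod_cast (by omega : 0 < z))
    refine le_trans hzβ ?_
    calc (X : ℝ) ^ β ≤ (X : ℝ) ^ (1 : ℝ) :=
          Real.rpow_le_rpow_of_exponent_le hXR (by linarith)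
      _ = X := Real.rpow_one _
  have hlz0 : 0 < Real.log z := Real.log_pos (by exact_mod_cast (by omega : 1 < z))
  set L : ℝ := Real.log X with hL
  have hL1 : 1 ≤ L := by
    rw [hL, Real.le_log_iff_exp_le hXpos]
    have h3 : (3 : ℝ) ≤ X := by exact_mod_cast (by omega : 3 ≤ X)
    linarith [Real.exp_one_lt_d9]
  have k5 : (P : ℝ) * (K * (1 + Real.log z) * (K * (z : ℝ) ^ B) ^ 2 * P) ≤
      2 * (K : ℝ) ^ 3 * L * (X : ℝ) ^ (1 / 2 : ℝ) := by
    have e1 : (P : ℝ) * (K * (1 + Real.log z) * (K * (z : ℝ) ^ B) ^ 2 * P) =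
        (K : ℝ) ^ 3 * (1 + Real.log z) * ((P : ℝ) ^ 2 * ((z : ℝ) ^ B) ^ 2) := by ring
    have e2 : (P : ℝ) ^ 2 * ((z : ℝ) ^ B) ^ 2 ≤ (X : ℝ) ^ (1 / 2 : ℝ) := by
      have hzα : (z : ℝ) ≤ (X : ℝ) ^ α :=
        le_trans hzβ (Real.rpow_le_rpow_of_exponent_le hXR hβα.le)
      have h1 : (P : ℝ) ^ 2 ≤ ((X : ℝ) ^ α) ^ 2 := by gcongr
      have h2 : ((z : ℝ) ^ B) ^ 2 ≤ (((X : ℝ) ^ α) ^ B) ^ 2 := by gcongr
      calc (P : ℝ) ^ 2 * ((z : ℝ) ^ B) ^ 2 ≤ ((X : ℝ) ^ α) ^ 2 * (((X : ℝ) ^ α) ^ B) ^ 2 := by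
            gcongr
        _ = (X : ℝ) ^ (α * (2 * B + 2)) := by
            rw [← pow_mul, ← pow_add, ← Real.rpow_natCast, ← Real.rpow_mul hXpos.le]
            congr 1
            push_cast
            ring
        _ ≤ (X : ℝ) ^ (1 / 2 : ℝ) := by
            apply Real.rpow_le_rpow_of_exponent_le hXR
            have e5 : α * (2 * B + 2) = α * (32 * ((B : ℝ) + 1)) / 16 := by ring
            linarith
    rw [e1]
    have e3 : 1 + Real.log z ≤ 2 * L := by linarith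
    calc (K : ℝ) ^ 3 * (1 + Real.log z) * ((P : ℝ) ^ 2 * ((z : ℝ) ^ B) ^ 2)
        ≤ (K : ℝ) ^ 3 * (2 * L) * (X : ℝ) ^ (1 / 2 : ℝ) := by
          gcongr
      _ = 2 * (K : ℝ) ^ 3 * L * (X : ℝ) ^ (1 / 2 : ℝ) := by ring
  -- the final inequality
  have k6 : 1 / 2 * (c * X * H * V z) - (X : ℝ) ^ (1 - δ) * H ≤
      H * (3 * X * V z * (c / 25) + 2 * (K : ℝ) ^ 3 * L * (X : ℝ) ^ (1 / 2 : ℝ)) := by
    have h1 : (c * X * H * V z) ≤ (Good X P H).card * H * V z := by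
      have := mul_le_mul_of_nonneg_right g1 hHpos.le
      exact mul_le_mul_of_nonneg_right this hVz.le
    have h2 : (H : ℝ) * ∑ p ∈ (Ioc z P).filter Nat.Prime, ((NN X z p).card : ℝ) ≤
        H * (3 * X * V z * (c / 25) + 2 * (K : ℝ) ^ 3 * L * (X : ℝ) ^ (1 / 2 : ℝ)) := by
      apply mul_le_mul_of_nonneg_left _ hHpos.le
      linarith
    linarith
  have k7 : 19 / 50 * c * X * V z ≤
      (X : ℝ) ^ (1 - δ) + 2 * (K : ℝ) ^ 3 * L * (X : ℝ) ^ (1 / 2 : ℝ) := by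
    have h1 : (19 / 50 * c * X * V z) * H ≤
        ((X : ℝ) ^ (1 - δ) + 2 * (K : ℝ) ^ 3 * L * (X : ℝ) ^ (1 / 2 : ℝ)) * H := by
      linarith [k6]
    exact le_of_mul_le_mul_right h1 hHpos
  have k8 : c' / L ^ 2 ≤ V z := by
    refine le_trans ?_ (hV z hz2)
    apply div_le_div_of_nonneg_left hc'.le (by positivity)
    gcongr
  have k9 : 19 / 50 * c * X * c' ≤
      ((X : ℝ) ^ (1 - δ) + 2 * (K : ℝ) ^ 3 * L * (X : ℝ) ^ (1 / 2 : ℝ)) * L ^ 2 := by
    have hLpos : (0 : ℝ) < L ^ 2 := by positivity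
    have h1 : c' ≤ V z * L ^ 2 := by
      rw [div_le_iff₀ hLpos] at k8
      exact k8
    have h2 : 19 / 50 * c * X * c' ≤ (19 / 50 * c * X * V z) * L ^ 2 := by
      have h4 : (0 : ℝ) ≤ 19 / 50 * c * X := by positivity
      have h5 := mul_le_mul_of_nonneg_left h1 h4
      linarith
    have h3 := mul_le_mul_of_nonneg_right k7 hLpos.le
    linarith
  -- contradiction
  have hL2 : L ^ 2 ≤ L ^ 3 := by
    exact pow_le_pow_right₀ hL1 (by norm_num)
  have m1 : (X : ℝ) ^ (1 - δ) * L ^ 2 ≤ κ * X := by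
    have e1 : (X : ℝ) ^ (1 - δ) ≤ (X : ℝ) ^ (1 - δ') :=
      Real.rpow_le_rpow_of_exponent_le hXR (by linarith [min_le_left δ (1 / 2)])
    have e2 : (X : ℝ) ^ (1 - δ') * (X : ℝ) ^ δ' = X := by
      rw [← Real.rpow_add hXpos, sub_add_cancel, Real.rpow_one]
    calc (X : ℝ) ^ (1 - δ) * L ^ 2 ≤ (X : ℝ) ^ (1 - δ') * L ^ 3 := by gcongr
      _ ≤ (X : ℝ) ^ (1 - δ') * (κ * (X : ℝ) ^ δ') := by gcongr
      _ = κ * ((X : ℝ) ^ (1 - δ') * (X : ℝ) ^ δ') := by ring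
      _ = κ * X := by rw [e2]
  have m2 : 2 * (K : ℝ) ^ 3 * L * (X : ℝ) ^ (1 / 2 : ℝ) * L ^ 2 ≤ 2 * (K : ℝ) ^ 3 * (κ * X) := by
    have e1 : (X : ℝ) ^ δ' ≤ (X : ℝ) ^ (1 / 2 : ℝ) :=
      Real.rpow_le_rpow_of_exponent_le hXR (min_le_right δ (1 / 2))
    have e2 : (X : ℝ) ^ (1 / 2 : ℝ) * (X : ℝ) ^ (1 / 2 : ℝ) = X := by
      rw [← Real.rpow_add hXpos]
      norm_num
    calc 2 * (K : ℝ) ^ 3 * L * (X : ℝ) ^ (1 / 2 : ℝ) * L ^ 2
        = 2 * (K : ℝ) ^ 3 * ((X : ℝ) ^ (1 / 2 : ℝ) * L ^ 3) := by ring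
      _ ≤ 2 * (K : ℝ) ^ 3 * ((X : ℝ) ^ (1 / 2 : ℝ) * (κ * (X : ℝ) ^ (1 / 2 : ℝ))) := by
          gcongr
          exact le_trans g4 (by gcongr)
      _ = 2 * (K : ℝ) ^ 3 * (κ * ((X : ℝ) ^ (1 / 2 : ℝ) * (X : ℝ) ^ (1 / 2 : ℝ))) := by ring
      _ = 2 * (K : ℝ) ^ 3 * (κ * X) := by rw [e2]
  have m3 : 19 / 50 * c * X * c' ≤ (1 + 2 * (K : ℝ) ^ 3) * κ * X := by
    have : ((X : ℝ) ^ (1 - δ) + 2 * (K : ℝ) ^ 3 * L * (X : ℝ) ^ (1 / 2 : ℝ)) * L ^ 2 =
        (X : ℝ) ^ (1 - δ) * L ^ 2 + 2 * (K : ℝ) ^ 3 * L * (X : ℝ) ^ (1 / 2 : ℝ) * L ^ 2 := by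
      ring
    linarith
  have m4 : (1 + 2 * (K : ℝ) ^ 3) * κ = 19 / 50 * c * c' / 2 := by
    rw [hκ]
    field_simp
  rw [m4] at m3
  have m5 : 0 < 19 / 50 * c * c' * X := by positivity
  linarith

end Pool.Agent.Helper475R5.EP
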